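import Mathlib
import Pool.Agent.K7.H72.MT.N
import Pool.Agent.H413R3.Part.Pt

set_option autoImplicit false

/-!
# Odd values of `p_t` for almost all `t` (MP_a3366f_nt)

Let `p_t(n)` be the number of `t`-multipartitions of `n`, the coefficient of `q ^ n` in `1 / f_1 ^ t`.

Modulo 2 one has `1 / f_1 ^ (2 ^ k) = 1 + O(q ^ (2 ^ k))`, hence `p_t(n)` modulo 2, `n < 2 ^ k`, depends only
on `t` modulo `2 ^ k`, and `p_t(n)` modulo 2 is defined for all 2-adic integers `t`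
(`parity`, first part of the theorem; for instance `t = -1` and `t = -3` are `f_1` and `f_1 ^ 3`, with
about `√x` odd coefficients up to `x`).

* For almost all odd 2-adic integers `t`: every linear combination `∑ c_i p_t(n + i)`, `c ≠ 0`, is
  on every residue class `ρ` modulo `M` different modulo 2 from the prescribed sequence `w` for more
  than `D x ^ (3 / 4)` of the `n ≤ x`, for all `D` and all large `x`. With `w = 0` and `w = 1` both
  parities occur as often.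
* For every `M` the exceptional set (of all patterns `c` and all `ρ`) has Hausdorff dimension less
  than 1.
* The same for integers: for all but `C 2 ^ K / X ^ η` of the odd `t < 2 ^ K` there are at least
  `D x ^ (3 / 4)` such `n ≤ x` for all `x` with `X ≤ x < 2 ^ K`.
* Large deviations: there are at most `C B ^ θ (1 + (20 / 57) ^ θ) ^ K` integers `t < 2 ^ K` such that
  `∑ c_i p_t(n + i)` is odd for less than `B` of the `n < 2 ^ K`. For example, with `θ = 0.4`: for all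
  but `C T ^ 0.97` of the `t < T = 2 ^ K` it is odd for at least `T ^ 0.6` of the `n < T`.

Before, no family of odd `t` was known for which `p_t` has at least `x ^ (1 / 2 + δ)` odd values.

Method. The sections of `U / f_1 ^ t` modulo 2 at `2 n + b` are `U' / f_1 ^ (t / 2)`, `U'` the section of
`U / f_1 ^ e`, `e` the last digit of `t`. There is a weight `Φ(U) ∈ {0, …, 63}`, depending on the first 12
coefficients of `U`, such that for every `U`, with the sum over the two sections `b = 0, 1`,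
`Φ(U)² ≤ (20 / 57) (∑ Φ(U'_{b,0})) (∑ Φ(U'_{b,1}))`
(checked by the kernel for all possible coefficients `12, …, 23`). By the inequality of Cauchy and Schwarz
the total weight of all sections modulo `2 ^ k` then grows, for almost all `t`, like
`(57 / 20) ^ (k / 2) = 2 ^ (0.755 k)`.
-/

namespace Pool.Agent.Results.MP_a3366f_nt.AlmostAllExponents

open Finset MeasureTheory

/-- `p_t(n)`: the number of `t`-multipartitions of `n`, the coefficient of `q ^ n` in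
`∏ 1 / (1 - q ^ i) ^ t` -/
def multipartitions (t n : ℕ) : ℕ :=
  ∑ x ∈ Finset.Nat.antidiagonalTuple t n, ∏ i, Fintype.card (Nat.Partition (x i))

/-- `p_t(n)` modulo 2 for a 2-adic integer `t`: it is `p_s(n)` modulo 2 for every natural number `s`
that is congruent to `t` modulo `2 ^ k > n` -/
noncomputable def parity (t : ℤ_[2]) (n : ℕ) : ZMod 2 := multipartitions (t.appr (n + 1)) n

/-- the number of the `n ≤ x` in the residue class `ρ` modulo `M` with `∑ c_i a(n + i) ≠ w(n)` -/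
def count (a : ℕ → ZMod 2) (M ρ : ℕ) {L : ℕ} (c : Fin (L + 1) → ZMod 2) (w : ℕ → ZMod 2)
    (x : ℕ) : ℕ :=
  #{n ∈ range (x + 1) | n % M = ρ % M ∧ ∑ i : Fin (L + 1), c i * a (n + i) ≠ w n}

private theorem coeff_P2 (t n : ℕ) :
    PowerSeries.coeff n (Pool.Agent.K7.H72.MT.P2 ^ t) = (multipartitions t n : ZMod 2) :=
  Pool.Agent.H413R3.Part.coeff_pow_eq (t := t) (n := n)

private theorem pat_eq {L : ℕ} (c : Fin (L + 1) → ZMod 2) (t n : ℕ) :
    Pool.Agent.R836.PP.pat c (Pool.Agent.K7.H72.MT.P2 ^ t) n =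
      ∑ i : Fin (L + 1), c i * (multipartitions t (n + i) : ZMod 2) := by
  unfold Pool.Agent.R836.PP.pat
  refine sum_congr rfl fun i _ => ?_
  rw [coeff_P2]

private theorem cntP_eq (M ρ : ℕ) {L : ℕ} (c : Fin (L + 1) → ZMod 2) (w : ℕ → ZMod 2) (t x : ℕ) :
    Pool.Agent.K7.H72.MT.cntP M ρ c w t x =
      count (fun n => (multipartitions t n : ZMod 2)) M ρ c w x := by
  unfold Pool.Agent.K7.H72.MT.cntP count
  simp only [pat_eq]

private theorem parity_eq (t : ℤ_[2]) (n : ℕ) : parity t n = Pool.Agent.K7.H72.MT.pz t n := by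
  unfold parity Pool.Agent.K7.H72.MT.pz
  rw [coeff_P2]

private theorem cntZ_eq (M ρ : ℕ) {L : ℕ} (c : Fin (L + 1) → ZMod 2) (w : ℕ → ZMod 2)
    (t : ℤ_[2]) (x : ℕ) : Pool.Agent.K7.H72.MT.cntZ M ρ c w t x = count (parity t) M ρ c w x := by
  unfold Pool.Agent.K7.H72.MT.cntZ count
  simp only [parity_eq]

private theorem appr_one {t : ℤ_[2]} (h : ‖t‖ = 1) : t.appr 1 = 1 := by
  have h1 := PadicInt.appr_lt t 1
  rw [pow_one] at h1
  by_contra hne
  have h0 : t.appr 1 = 0 := by omega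
  have h2 := PadicInt.appr_spec (p := 2) 1 t
  rw [h0, Nat.cast_zero, sub_zero] at h2
  have h3 := (PadicInt.norm_le_pow_iff_mem_span_pow (p := 2) t 1).2 h2
  rw [h] at h3
  norm_num at h3

private theorem parity_wd (t : ℤ_[2]) (s n k : ℕ) (hn : n < 2 ^ k)
    (h : ‖t - s‖ ≤ (2 : ℝ) ^ (-(k : ℤ))) : parity t n = (multipartitions s n : ZMod 2) := by
  have h2 : ((2 : ℕ) : ℝ) ^ (-(k : ℤ)) = (2 : ℝ) ^ (-(k : ℤ)) := by norm_num
  rw [← h2, PadicInt.norm_le_pow_iff_mem_span_pow] at h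
  have h1 := PadicInt.zmod_congr_of_sub_mem_span (p := 2) k t _ _ (PadicInt.appr_spec (p := 2) k t) h
  rw [ZMod.natCast_eq_natCast_iff] at h1
  rw [parity_eq, Pool.Agent.K7.H72.MT.pz_eq t hn, ← coeff_P2]
  exact Pool.Agent.K7.H72.MT.coeff_congr' hn h1

private theorem ncard_eq {K : ℕ} (P : ℕ → Prop) [DecidablePred P] :
    Set.ncard {t : ℕ | t < 2 ^ K ∧ P t} = #{t ∈ range (2 ^ K) | P t} := by
  rw [← Set.ncard_coe_finset]
  congr 1
  ext t
  simp

private theorem ne_zero_iff (x : ZMod 2) : x ≠ 0 ↔ x = 1 := by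
  revert x
  decide

private theorem inner_eq {L : ℕ} (c : Fin (L + 1) → ZMod 2) (K t : ℕ) :
    Set.ncard {n : ℕ | n < 2 ^ K ∧
        ∑ i : Fin (L + 1), c i * (multipartitions t (n + i) : ZMod 2) = 1} =
      #{n ∈ range (2 ^ K) |
        Pool.Agent.R836.PP.pat c (Pool.Agent.K7.H72.MT.P2 ^ t) n ≠ 0} := by
  rw [ncard_eq]
  simp only [pat_eq, ne_zero_iff]

private theorem large {L : ℕ} (c : Fin (L + 1) → ZMod 2) (hc : c ≠ 0) (θ : ℝ) (hθ : 0 ≤ θ) :
    ∃ C : ℝ, 0 < C ∧ ∀ K B : ℕ, 1 ≤ B → (Set.ncard {t : ℕ | t < 2 ^ K ∧ Set.ncard {n : ℕ | n < 2 ^ K ∧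
        ∑ i : Fin (L + 1), c i * (multipartitions t (n + i) : ZMod 2) = 1} < B} : ℝ) ≤
          C * (B : ℝ) ^ θ * (1 + (20 / 57 : ℝ) ^ θ) ^ K := by
  obtain ⟨C, hC, h⟩ := Pool.Agent.K7.H72.MT.ld_pat c hc hθ
  refine ⟨C, hC, fun K B hB => ?_⟩
  have h1 := h K B hB
  simp only [inner_eq]
  rw [ncard_eq]
  exact h1

/-- **Main result.** -/
theorem result :
    -- the definition of `parity`
    (∀ (t : ℤ_[2]) (s n k : ℕ), n < 2 ^ k → ‖t - s‖ ≤ (2 : ℝ) ^ (-(k : ℤ)) →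
      parity t n = (multipartitions s n : ZMod 2)) ∧
    -- almost all odd 2-adic `t`
    (∀ (w : ℕ → ZMod 2) [MeasurableSpace ℤ_[2]] [BorelSpace ℤ_[2]] (μ : Measure ℤ_[2])
      [IsProbabilityMeasure μ] [μ.IsAddLeftInvariant],
      ∀ᵐ t ∂μ, ‖t‖ = 1 → ∀ M : ℕ, 0 < M → ∀ (ρ L : ℕ) (c : Fin (L + 1) → ZMod 2), c ≠ 0 →
        Filter.Tendsto (fun x : ℕ => (count (parity t) M ρ c w x : ℝ) / (x : ℝ) ^ (3 / 4 : ℝ))
          Filter.atTop Filter.atTop) ∧
    -- the dimension of the exceptional set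
    (∀ M : ℕ, 0 < M → ∃ s : ℝ, s < 1 ∧ ∀ w : ℕ → ZMod 2,
      dimH {t : ℤ_[2] | ‖t‖ = 1 ∧ ∃ (ρ L : ℕ) (c : Fin (L + 1) → ZMod 2), c ≠ 0 ∧
        ¬ Filter.Tendsto (fun x : ℕ => (count (parity t) M ρ c w x : ℝ) / (x : ℝ) ^ (3 / 4 : ℝ))
          Filter.atTop Filter.atTop} ≤ ENNReal.ofReal s) ∧
    -- almost all odd integers `t`
    (∀ M : ℕ, 0 < M → ∃ η : ℝ, 0 < η ∧ ∀ (ρ L : ℕ) (c : Fin (L + 1) → ZMod 2), c ≠ 0 →
      ∀ (w : ℕ → ZMod 2) (D : ℝ), 0 < D → ∃ C : ℝ, 0 < C ∧ ∀ K X : ℕ, 1 ≤ X →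
        (Set.ncard {t : ℕ | t < 2 ^ K ∧ Odd t ∧ ∃ x : ℕ, X ≤ x ∧ x < 2 ^ K ∧
          (count (fun n => (multipartitions t n : ZMod 2)) M ρ c w x : ℝ) <
            D * (x : ℝ) ^ (3 / 4 : ℝ)} : ℝ) ≤ C * 2 ^ K / (X : ℝ) ^ η) ∧
    -- large deviations
    (∀ (L : ℕ) (c : Fin (L + 1) → ZMod 2), c ≠ 0 → ∀ θ : ℝ, 0 ≤ θ → ∃ C : ℝ, 0 < C ∧
      ∀ K B : ℕ, 1 ≤ B → (Set.ncard {t : ℕ | t < 2 ^ K ∧ Set.ncard {n : ℕ | n < 2 ^ K ∧
        ∑ i : Fin (L + 1), c i * (multipartitions t (n + i) : ZMod 2) = 1} < B} : ℝ) ≤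
          C * (B : ℝ) ^ θ * (1 + (20 / 57 : ℝ) ^ θ) ^ K) := by
  refine ⟨parity_wd, ?_, ?_, ?_, fun L c hc θ hθ => large c hc θ hθ⟩
  · intro w _ _ μ _ _
    filter_upwards [Pool.Agent.K7.H72.MT.ae_all w μ] with t ht h1 M hM ρ L c hc
    have h := ht (appr_one h1) M hM ρ L c hc
    simp only [cntZ_eq] at h
    exact h
  · intro M hM
    obtain ⟨s, hs, h⟩ := Pool.Agent.K7.H72.MT.dim_all M hM
    refine ⟨s, hs, fun w => le_trans (dimH_mono ?_) (h w)⟩
    rintro t ⟨h1, ρ, L, c, hc, h2⟩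
    refine ⟨appr_one h1, ρ, L, c, hc, ?_⟩
    simp only [cntZ_eq]
    exact h2
  · intro M hM
    obtain ⟨η, hη, h⟩ := Pool.Agent.K7.H72.MT.prog_bound M hM
    refine ⟨η, hη, fun ρ L c hc w D hD => ?_⟩
    obtain ⟨C, hC, h1⟩ := h ρ L c hc w D hD
    refine ⟨C, hC, fun K X hX => ?_⟩
    have h2 := h1 K X hX
    classical
    rw [ncard_eq]
    simp only [cntP_eq] at h2
    simp only [Nat.odd_iff]
    convert h2

end Pool.Agent.Results.MP_a3366f_nt.AlmostAllExponents
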