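import Pool.Agent.K7.H45.AB.Main

set_option autoImplicit false

/-!
# Parity of eta-quotients against Mahler functions and automata of all bases (MP_a3366f_nt)

Let `F = ∑ a(n) q ^ n` be an eta-quotient such that `a(n)` is odd for some `n ≥ 1` (for instance
`1 / f_1 ^ t` with `t` odd, `a(1) = t`), let `g_1, …, g_k` be power series over `F_2`, `g_z` a Mahler
function of base `b_z ≥ 2` (the bases are arbitrary, possibly multiplicatively independent), and let
`Q ≥ 0`. There is a constant `C` such that every sequence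

  `W(n) = ∑_{i < K} c_i a(n + i) + ∑_z ∑_{i < K} e_{z,i} g_z(n + i) + ∑_l u_l(n + τ_l)` modulo 2,

in which some `c_i ≠ 0`, `τ_l < K`, and the `u_l` are arbitrarily many sequences, each computed by a
finite automaton with at most `Q` states reading the digits of its argument in some base
`2 ≤ b ≤ Q` (different bases are allowed in the same sum), takes both values in every interval
`[A, C (A + K)]`.

Method. `D = q ∏ (1 - q ^ n) ^ 24` modulo 2. By the starting files, `q ^ (s / 24) F` is algebraic over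
`F_2(D)`, linear forms over `F_2[q]` in functions algebraic over `F_2(q, D)` satisfy a Liouville
inequality, and `q` is transcendental over the algebraic closure of `F_2(D)`. (1) All the dilates
`F(q ^ m)`, `m ≥ 1`, together with 1, are linearly independent over `F_2(q)`: a relation splits
according to powers of `q ^ (1 / 24)`, and then the terms have distinct orders. (2) Elimination of
Mahler functions: let `L` be a linear form in the dilates of `F`, in functions `V` and in a finite
system `U` of Mahler functions of base `b` closed under `q ↦ q ^ b`, `|U| = n`. The `n + 1` forms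
`L(q ^ (b ^ k))`, `k ≤ n`, can be expressed through the `n` functions `U(q ^ (b ^ n))`, and a
combination with polynomial coefficients of controlled degree (a lemma of Siegel type) eliminates
them. What remains is a form in dilates of `F` and of `V` in which the dilate `F(q ^ (b ^ k m))`,
`k` and `m` maximal, has a nonzero coefficient. So the bases are removed one after the other, and the
order of `L` is at most a constant times its degree. (3) A run of equal values of `W` makes the order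
of such a form large.
-/

namespace Pool.Agent.Results.MP_a3366f_nt.AutomataInAllBases

open PowerSeries

/-- `f_d = ∏_{i ≥ 1} (1 - q ^ (d i))`: Mathlib's series `pentagonalSeries ℤ = ∏_{i ≥ 1} (1 - q ^ i)`
in the variable `q ^ d` -/
noncomputable def f (d : ℕ) : ℤ⟦X⟧ :=
  PowerSeries.mk fun n => if d ∣ n then coeff (n / d) (pentagonalSeries ℤ) else 0

/-- `F = ∏_{d ∈ D} f_d ^ (u_d - v_d)`, an eta-quotient -/
def IsEtaQuotient (F : ℤ⟦X⟧) : Prop :=
  ∃ (D : Finset ℕ) (u v : ℕ → ℕ), 0 ∉ D ∧ F * ∏ d ∈ D, f d ^ v d = ∏ d ∈ D, f d ^ u d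

/-- `g(q ^ b)` -/
noncomputable def sub (b : ℕ) (g : (ZMod 2)⟦X⟧) : (ZMod 2)⟦X⟧ :=
  PowerSeries.mk fun n => if b ∣ n then coeff (n / b) g else 0

/-- `g` is a Mahler function of base `b`:
`p_0(q) g(q) + p_1(q) g(q ^ b) + … + p_d(q) g(q ^ (b ^ d)) = r(q)` with polynomials `p_i`, `r` over
`F_2`, `p_0 ≠ 0` -/
def IsMahler (b : ℕ) (g : (ZMod 2)⟦X⟧) : Prop :=
  ∃ (d : ℕ) (p : ℕ → Polynomial (ZMod 2)) (r : Polynomial (ZMod 2)), p 0 ≠ 0 ∧
    ∑ i ∈ Finset.range (d + 1), (p i : (ZMod 2)⟦X⟧) * sub (b ^ i) g = r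

/-- `u(n)` is computed by a finite automaton with at most `Q` states (transition function `δ`, initial
state `q`, output function `h`) which reads the digits of `n` in a base `b`, `2 ≤ b ≤ Q`, (the list
`Nat.digits b n`, least significant digit first, empty for `n = 0`), starting from the least
significant one or starting from the most significant one -/
def Automatic (Q : ℕ) (u : ℕ → ZMod 2) : Prop :=
  ∃ (b s : ℕ) (δ : Fin s → ℕ → Fin s) (q : Fin s) (h : Fin s → ZMod 2), 2 ≤ b ∧ b ≤ Q ∧ s ≤ Q ∧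
    ((∀ n, u n = h ((Nat.digits b n).foldl δ q)) ∨
      (∀ n, u n = h ((Nat.digits b n).reverse.foldl δ q)))

theorem result (F : ℤ⟦X⟧) (hF : IsEtaQuotient F) (hodd : ∃ n, 0 < n ∧ Odd (coeff n F))
    (k : ℕ) (g : Fin k → (ZMod 2)⟦X⟧) (b : Fin k → ℕ) (hb : ∀ z, 2 ≤ b z)
    (hg : ∀ z, IsMahler (b z) (g z)) (Q : ℕ) :
    ∃ C : ℕ, ∀ (K : ℕ) (c : ℕ → ZMod 2) (e : Fin k → ℕ → ZMod 2), (∃ i < K, c i ≠ 0) →
      ∀ (L : ℕ) (u : Fin L → ℕ → ZMod 2) (τ : Fin L → ℕ), (∀ l, Automatic Q (u l)) →
        (∀ l, τ l < K) →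
      ∀ (κ : ZMod 2) (A : ℕ), ∃ n, A ≤ n ∧ n ≤ C * (A + K) ∧
        ∑ i ∈ Finset.range K, c i * ((coeff (n + i) F : ℤ) : ZMod 2) +
          ∑ z, ∑ i ∈ Finset.range K, e z i * coeff (n + i) (g z) + ∑ l, u l (n + τ l) = κ := by
  classical
  obtain ⟨D, u, v, hD, hrel⟩ := hF
  set G : (ZMod 2)⟦X⟧ := F.map (Int.castRingHom (ZMod 2)) with hG
  have hS := Pool.Agent.Y627.PT.sec_eta D u v hD F hrel
  have h1 : Pool.Agent.Y627.PT.AZ (Pool.Agent.TH693.QQ.T5.jj G)
      (-(∑ d ∈ D, (d : ℤ) * ((u d : ℤ) - v d))) := by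
    have := hS 1 0 one_pos
    rwa [Pool.Agent.Y627.PT.proj_one] at this
  have hc : ∀ d ∈ D, constantCoeff ((f d).map (Int.castRingHom (ZMod 2))) = 1 := by
    intro d hd
    have hd0 : d ≠ 0 := fun h => hD (h ▸ hd)
    have e1 : (f d).map (Int.castRingHom (ZMod 2)) =
        Pool.Agent.Y627.PT.ex d hd0 Pool.Agent.TH693.PP.E := Pool.Agent.Y627.PT.map_eul hd0
    rw [e1]
    unfold Pool.Agent.Y627.PT.ex
    rw [← coeff_zero_eq_constantCoeff_apply, PowerSeries.coeff_expand, if_pos (dvd_zero _),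
      Nat.zero_div, coeff_zero_eq_constantCoeff_apply]
    exact Pool.Agent.TH693.PP.constE
  have h2 : constantCoeff G = 1 := by
    have e1 := congrArg (PowerSeries.map (Int.castRingHom (ZMod 2))) hrel
    rw [map_mul, map_prod, map_prod, ← hG] at e1
    have e2 := congrArg constantCoeff e1
    rw [map_mul, map_prod, map_prod] at e2
    have e3 : ∀ w : ℕ → ℕ, ∏ d ∈ D, constantCoeff ((f d ^ w d).map (Int.castRingHom (ZMod 2))) = 1 :=
      fun w => Finset.prod_eq_one fun d hd => by rw [map_pow, map_pow, hc d hd, one_pow]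
    rw [e3, e3, mul_one] at e2
    exact e2
  have h3 : G ≠ 1 := by
    intro h
    obtain ⟨n, hn, ho⟩ := hodd
    have e1 := congrArg (coeff n) h
    rw [hG, PowerSeries.coeff_map, coeff_one, if_neg hn.ne'] at e1
    have e2 : ((coeff n F : ℤ) : ZMod 2) = 0 := e1
    rw [ZMod.intCast_eq_zero_iff_even] at e2
    exact (Int.not_even_iff_odd.2 ho) e2
  have h4 : ∀ z, Pool.Agent.K7.H45.AB.IsMahler (b z) (g z) := by
    intro z
    obtain ⟨d, p, r, hp, hr⟩ := hg z
    refine ⟨d, p, r, hp, ?_⟩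
    rw [Pool.Agent.K7.H45.AB.pc_apply, ← hr]
    refine Finset.sum_congr rfl fun i _ => ?_
    rw [Pool.Agent.K7.H45.AB.pc_apply]
    congr 1
    ext n
    rw [Pool.Agent.K7.H45.AB.coeff_dl (pow_ne_zero _ (by have := hb z; omega)), sub, coeff_mk]
  obtain ⟨C, hC⟩ := Pool.Agent.K7.H45.AB.main h1 h2 h3 Q k g b hb h4
  refine ⟨C, fun K c e hce L u τ hu hτ κ A => ?_⟩
  obtain ⟨n, hn1, hn2, hn3⟩ := hC K c e hce L u τ (fun l => by
    obtain ⟨β, s, δ, q, h, hβ, hβQ, hs, hor⟩ := hu l
    exact ⟨β, hβ, hβQ, s, δ, q, h, hs, hor⟩) hτ κ A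
  refine ⟨n, hn1, hn2, ?_⟩
  rw [add_assoc, ← hn3]
  congr 1

end Pool.Agent.Results.MP_a3366f_nt.AutomataInAllBases
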