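import Pool.Agent.K7.H91.SQ.Main2
import Pool.Agent.K7.H91.SQ.Cnt2
import Pool.Agent.R836.RD.Main
import Pool.Agent.H413R3.Part.Pt

set_option autoImplicit false

/-!
# Odd coefficients of eta-quotients in arithmetic progressions: nothing or `c √x` (MP_a3366f_nt)

Let `F = ∑ a(n) q ^ n` be an eta-quotient, `F = ∏ f_d ^ (e_d)`, `s = ∑ d e_d`. Let `M ≥ 1` and `r` be
given. Then either `a(n)` is even for all `n ≡ r (mod M)`, with at most the one exception
`n = -s / 24`, or there is a constant `c > 0` such that for all large `x` at least `c √x` of the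
`n ≤ x` with `n ≡ r (mod M)` have `a(n)` odd. In particular, for all odd `t` and for all `M` and `r`,
the number of `n ≤ x`, `n ≡ r (mod M)`, with `p_t(n)` odd is at least `c √x` for large `x` (no
progression is exceptional: starting file `R836/RD`). The dichotomy is sharp: for `f_1`, `f_1 ^ 3`,
`f_2 ^ 2 / f_1`, … the number of odd coefficients up to `x` is of the order `√x`, and for `F = 1`,
or more generally for squares and products such as `f_1 ^ 8 / f_2 ^ 4`, it is `1`.

Method. Let `w = q ^ (1 / 24)`, `D(w) = ∑ w ^ (odd squares)`, `e(w) = w ∏ (1 - w ^ (24 n))`, modulo 2,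
`k` the algebraic closure of `F_2`, `m` odd, `L` a suitable odd multiple of `m`, `t = D(w ^ L)`. The
functions `D(c w ^ j)`, `j ∣ L`, `c ^ (L / j) = 1`, are integral over `k[t]` (Hecke operators `T_ℓ`
modulo 2), and so are the functions `e(c w ^ j)`, whose cubes they are. (1) Every automorphism `ρ` of
the algebraic closure of `k((w))` that fixes `t` maps the part of class `γ` modulo `2 ^ κ` of `t` to
the part of class `u γ`, with `u` a square, for all `κ` and `γ` (see `SquareRootBound`). (2) If `ρ`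
also fixes the finite set of all these functions, then it acts with the same `u` on the parts of
`e(c w ^ j)`, hence on the parts modulo `2 ^ κ` of the section modulo `m` of the eta-quotient. (3) There is
a `ρ` with `u ≡ 9 (mod 16)` (the part of class `L` modulo 16 of `t` generates an Artin–Schreier
extension), so a power of it fixes the finite set, and the orbits of the classes have `≥ c 2 ^ κ`
elements. (4) The product over an orbit of the parts, divided by the corresponding powers of the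
eta-quotient, is fixed by a group of finite index (independent of `κ`). It is integral over `k[t]` up
to a fixed denominator, and of degree `O(4 ^ κ)` per factor at `t = ∞`. So its order at `w = 0`, the
sum of the least exponents of the parts, is `O(4 ^ κ)` times the length of the orbit. Thus `≥ c 2 ^ κ`
classes modulo `2 ^ κ` contain an odd coefficient with `n = O(4 ^ κ)`.
-/

namespace Pool.Agent.Results.MP_a3366f_nt.EtaQuotientDichotomy

open PowerSeries

/-- `f_d = ∏_{i ≥ 1} (1 - q ^ (d i))`: Mathlib's series `pentagonalSeries ℤ = ∏_{i ≥ 1} (1 - q ^ i)`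
in the variable `q ^ d` -/
noncomputable def f (d : ℕ) : ℤ⟦X⟧ :=
  PowerSeries.mk fun n => if d ∣ n then coeff (n / d) (pentagonalSeries ℤ) else 0

/-- `F = ∏_{d ∈ D} f_d ^ (u_d - v_d)`, an eta-quotient, and `s = ∑_{d ∈ D} d (u_d - v_d)` -/
def IsEtaQuotient (F : ℤ⟦X⟧) (s : ℤ) : Prop :=
  ∃ (D : Finset ℕ) (u v : ℕ → ℕ), 0 ∉ D ∧ F * ∏ d ∈ D, f d ^ v d = ∏ d ∈ D, f d ^ u d ∧
    s = ∑ d ∈ D, (d : ℤ) * ((u d : ℤ) - v d)

/-- the number of `t`-multipartitions of `n`: the coefficient of `q ^ n` in `∏ 1 / (1 - q ^ i) ^ t` -/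
def multipartitions (t n : ℕ) : ℕ :=
  ∑ x ∈ Finset.Nat.antidiagonalTuple t n, ∏ i, Fintype.card (Nat.Partition (x i))

/-- for all large `x`, at least `c √x` of the `n ≤ x` satisfy `A n`, for some `c > 0` -/
def AtLeastSqrt (A : ℕ → Prop) : Prop :=
  ∃ c : ℝ, 0 < c ∧ ∃ x₀ : ℕ, ∀ x : ℕ, x₀ ≤ x →
    c * √(x : ℝ) ≤ (Nat.card {n : ℕ | n ≤ x ∧ A n} : ℝ)

private theorem eta (F : ℤ⟦X⟧) (s : ℤ) (hF : IsEtaQuotient F s) (M r n₀ : ℕ) (hM : 0 < M)
    (h1 : n₀ ≡ r [MOD M]) (h2 : Odd (coeff n₀ F)) (h3 : 24 * (n₀ : ℤ) + s ≠ 0) :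
    AtLeastSqrt fun n => n ≡ r [MOD M] ∧ Odd (coeff n F) := by
  classical
  obtain ⟨D, u, v, hD, hrel, hs⟩ := hF
  obtain ⟨c1, c2, κ0, h4⟩ := Pool.Agent.K7.H91.SQ.main_eta D u v hD F hrel s hs M n₀ hM h2 h3
  obtain ⟨c, hc, x₀, h5⟩ := Pool.Agent.K7.H91.SQ.count_abs
    (fun n => n ≡ r [MOD M] ∧ Odd (coeff n F)) c1 c2 κ0 (by
      intro κ hκ
      obtain ⟨T, h6, h7, h8⟩ := h4 κ hκ
      exact ⟨T, fun n hn => ⟨(h6 n hn).1.trans h1, (h6 n hn).2⟩, h7, h8⟩)
  refine ⟨c, hc, x₀, fun x hx => (h5 x hx).trans (le_of_eq ?_)⟩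
  congr 1
  rw [Nat.card_coe_set_eq, ← Set.ncard_coe_finset]
  congr 1
  ext n
  simp

private theorem part (t : ℕ) (ht : Odd t) (M r : ℕ) (hM : 0 < M) :
    AtLeastSqrt fun n => n ≡ r [MOD M] ∧ Odd (multipartitions t n) := by
  classical
  set P0 : ℤ⟦X⟧ := PowerSeries.mk fun n => (Fintype.card (Nat.Partition n) : ℤ) with hP0
  have hf1 : f 1 = pentagonalSeries ℤ := by
    ext n
    rw [f, coeff_mk, if_pos (one_dvd n), Nat.div_one]
  have hmul : P0 * f 1 = 1 := by
    rw [hf1]
    exact Pool.Agent.H397R2.PP.mk_card_mul_pentagonalSeries ℤ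
  have hF : IsEtaQuotient (P0 ^ t) (-(t : ℤ)) := by
    refine ⟨{1}, fun _ => 0, fun _ => t, by simp, ?_, by simp⟩
    rw [Finset.prod_singleton, Finset.prod_singleton, pow_zero, ← mul_pow, hmul, one_pow]
  have hmap : (P0 ^ t).map (Int.castRingHom (ZMod 2)) = Pool.Agent.TH693.PP.P ^ t := by
    have h1 : P0.map (Int.castRingHom (ZMod 2)) = Pool.Agent.TH693.PP.P := by
      ext n
      rw [PowerSeries.coeff_map, hP0, coeff_mk, Pool.Agent.TH693.PP.P, coeff_mk]
      exact Int.cast_natCast _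
    rw [map_pow, h1]
  have hodd : ∀ n, Odd (coeff n (P0 ^ t)) ↔ Odd (multipartitions t n) := by
    intro n
    have h1 : coeff n (Pool.Agent.TH693.PP.P ^ t) = (multipartitions t n : ZMod 2) :=
      Pool.Agent.H413R3.Part.coeff_pow_eq (t := t) (n := n)
    have h2 : coeff n (Pool.Agent.TH693.PP.P ^ t) = ((coeff n (P0 ^ t) : ℤ) : ZMod 2) := by
      rw [← hmap, PowerSeries.coeff_map]
      rfl
    have h3 : ((coeff n (P0 ^ t) : ℤ) : ZMod 2) = (multipartitions t n : ZMod 2) := by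
      rw [← h2, h1]
    have e1 : ((coeff n (P0 ^ t) : ℤ) : ZMod 2) = 0 ↔ Even (coeff n (P0 ^ t)) :=
      ZMod.intCast_eq_zero_iff_even
    have e2 : ((multipartitions t n : ℕ) : ZMod 2) = 0 ↔ Even (multipartitions t n) :=
      ZMod.natCast_eq_zero_iff_even
    rw [← Int.not_even_iff_odd, ← Nat.not_even_iff_odd, ← e1, ← e2, h3]
  obtain ⟨n, -, hn⟩ := Pool.Agent.R836.RD.full_P t ht M r hM 0
  have hne : Odd (multipartitions t (M * n + r)) := by
    have h1 : coeff (M * n + r) (Pool.Agent.TH693.PP.P ^ t) =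
        (multipartitions t (M * n + r) : ZMod 2) :=
      Pool.Agent.H413R3.Part.coeff_pow_eq (t := t) (n := M * n + r)
    rw [← Nat.not_even_iff_odd, ← ZMod.natCast_eq_zero_iff_even, ← h1, hn]
    exact one_ne_zero
  have h4 := eta (P0 ^ t) (-(t : ℤ)) hF M r (M * n + r) hM
    (by
      have : M * n + r ≡ 0 + r [MOD M] :=
        Nat.ModEq.add_right r ((Nat.modEq_zero_iff_dvd).2 (Dvd.intro _ rfl))
      rwa [zero_add] at this)
    ((hodd _).2 hne) (by
      obtain ⟨d, hd⟩ := ht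
      push_cast
      omega)
  simp only [hodd] at h4
  exact h4

theorem result :
    (∀ (F : ℤ⟦X⟧) (s : ℤ), IsEtaQuotient F s → ∀ M r : ℕ, 0 < M →
      (∀ n : ℕ, n ≡ r [MOD M] → Odd (coeff n F) → 24 * (n : ℤ) + s = 0) ∨
        AtLeastSqrt fun n => n ≡ r [MOD M] ∧ Odd (coeff n F)) ∧
    (∀ t : ℕ, Odd t → ∀ M r : ℕ, 0 < M →
      AtLeastSqrt fun n => n ≡ r [MOD M] ∧ Odd (multipartitions t n)) := by
  refine ⟨fun F s hF M r hM => ?_, part⟩
  by_cases h : ∀ n : ℕ, n ≡ r [MOD M] → Odd (coeff n F) → 24 * (n : ℤ) + s = 0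
  · exact Or.inl h
  · push Not at h
    obtain ⟨n₀, h1, h2, h3⟩ := h
    exact Or.inr (eta F s hF M r n₀ hM h1 h2 h3)

end Pool.Agent.Results.MP_a3366f_nt.EtaQuotientDichotomy
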