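import Pool.Agent.K7.H91.SQ.Fin1
import Pool.Agent.K7.H91.SQ.Cnt1

set_option autoImplicit false

/-!
# Odd values of the number of `t`-multipartitions, all odd `t` (MP_a3366f_nt)

Let `t` be odd and let `p_t n` be the number of `t`-multipartitions of `n`. For every `b`, every class
`ρ` modulo `2 ^ b` contains an `n` with `p_t n` odd, and the sum over the `2 ^ b` classes of the least
such `n` is at most `0 ^ 2 + 1 ^ 2 + … + (2 ^ b - 1) ^ 2`. Consequently, for all `a`, all classes `ρ`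
modulo `2 ^ a` and all `x ≥ 8 ^ a`, at least `√(x / 8 ^ a) / 2` of the `n ≤ x` with `n ≡ ρ (mod 2 ^ a)`
have `p_t n` odd; in particular (`a = 0`) at least `√x / 2` of the `n ≤ x`, for all odd `t` and all
`x ≥ 1`. The bounds do not depend on `t`.

Method. Let `e = q ∏ (1 - q ^ (24 n))`, `D = ∑ q ^ ((2 k + 1) ^ 2)` modulo 2, so `e ^ 3 = D(q ^ 3)` and
`p_t` is given by `e ^ (-t)`. Let `Q = 2 ^ b`. The part `V_r` of `e ^ (-t)` with the exponents
`≡ r (mod 8 Q)` is `e ^ (-t)` times a polynomial in `θ / D`, `θ` the theta functions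
`∑ q ^ (3 z ^ 2)`, `z ≡ c (mod 4 Q)`; these lie in a tower of quadratic extensions of `F_2(D)` (split and
product relations of the starting file `TH693/QQ/QD1`). The new relation

  `θ_c θ_(3 c) = η_c ^ 8 θ_c ^ 2 + η_(c + M / 2) ^ 8 θ_(c + M) ^ 2`

(`θ` modulo `2 M`, `η` modulo `M`) shows that every automorphism over `F_2(D)` maps all `θ_c` to
`θ_(g c)` with one odd `g`, hence `V_r e ^ t` to `V_(g ^ 2 r) e ^ t`. So the product of all `V_r e ^ t` is
invariant; it is integral over `F_2[D]`, and the same relations bound its degree at `D = ∞`. A power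
of it is a polynomial in `D` of bounded degree, and this bounds its order at `q = 0`, which is the sum
of the least exponents. (`V_r ≠ 0`: starting file `R836/RD`.)
-/

namespace Pool.Agent.Results.MP_a3366f_nt.SquareRootBound

open Finset

/-- the number of `t`-multipartitions of `n`: the coefficient of `q ^ n` in `∏ 1 / (1 - q ^ i) ^ t` -/
def multipartitions (t n : ℕ) : ℕ :=
  ∑ x ∈ Finset.Nat.antidiagonalTuple t n, ∏ i, Fintype.card (Nat.Partition (x i))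

private theorem odd_iff (t n : ℕ) : Odd (multipartitions t n) ↔
    PowerSeries.coeff n (Pool.Agent.TH693.PP.P ^ t) ≠ 0 := by
  have h : PowerSeries.coeff n (Pool.Agent.TH693.PP.P ^ t) = (multipartitions t n : ZMod 2) :=
    Pool.Agent.H413R3.Part.coeff_pow_eq (t := t) (n := n)
  rw [h, Ne, ZMod.natCast_eq_zero_iff_even, Nat.not_even_iff_odd]

private theorem main (t : ℕ) (ht : Odd t) (b : ℕ) : ∃ n : ℕ → ℕ,
    (∀ ρ < 2 ^ b, n ρ ≡ ρ [MOD 2 ^ b]) ∧ (∀ ρ < 2 ^ b, Odd (multipartitions t (n ρ))) ∧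
      ∑ ρ ∈ range (2 ^ b), n ρ ≤ ∑ k ∈ range (2 ^ b), k ^ 2 := by
  obtain ⟨n, h1, h2, h3⟩ := Pool.Agent.K7.H91.SQ.least_exists t ht b
  have h4 := Pool.Agent.K7.H91.SQ.sum_least t ht b n h1 h2 h3
  have h5 := Pool.Agent.K7.H91.SQ.dl_val b
  refine ⟨n, h1, fun ρ hρ => (odd_iff t _).2 (h2 ρ hρ), ?_⟩
  have h6 : ∀ Q : ℕ, 6 * (∑ k ∈ range (Q + 1), k ^ 2) = Q * (Q + 1) * (2 * Q + 1) := by
    intro Q
    induction Q with
    | zero => rfl
    | succ Q ih =>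
      rw [sum_range_succ, mul_add, ih]
      ring
  obtain ⟨q, hq⟩ : ∃ q, 2 ^ b = q + 1 := ⟨2 ^ b - 1, by have := Nat.one_le_two_pow (n := b); omega⟩
  have h7 : 6 * (∑ k ∈ range (2 ^ b), k ^ 2) = q * (q + 1) * (2 * q + 1) := by
    rw [hq]
    exact h6 q
  have h8 : 4 ^ b = (q + 1) ^ 2 := by rw [← hq, ← pow_mul, mul_comm b 2, pow_mul]; norm_num
  rw [h8] at h5
  have h9 : 24 * (∑ ρ ∈ range (2 ^ b), n ρ) + (q + 1) * (12 * (q + 1)) ≤
      (q + 1) * (8 * (q + 1) ^ 2 + 4) := by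
    rw [← h5]
    calc 24 * (∑ ρ ∈ range (2 ^ b), n ρ) + (q + 1) * (12 * (q + 1))
        ≤ 3 * (2 ^ b * Pool.Agent.K7.H91.SQ.dl Pool.Agent.K7.H91.SQ.qq (b + 3)) +
          (q + 1) * (12 * (q + 1)) := by omega
      _ = _ := by rw [hq]; ring
  have h10 : (q + 1) * (8 * (q + 1) ^ 2 + 4) = 4 * (q * (q + 1) * (2 * q + 1)) +
      (q + 1) * (12 * (q + 1)) := by ring
  rw [h10] at h9
  rw [← h7] at h9
  omega

theorem result (t : ℕ) (ht : Odd t) :
    (∀ b : ℕ, ∃ n : ℕ → ℕ, (∀ ρ < 2 ^ b, n ρ ≡ ρ [MOD 2 ^ b] ∧ Odd (multipartitions t (n ρ))) ∧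
      ∑ ρ ∈ range (2 ^ b), n ρ ≤ ∑ k ∈ range (2 ^ b), k ^ 2) ∧
    (∀ a ρ x : ℕ, 8 ^ a ≤ x → √((x : ℝ) / 8 ^ a) / 2 ≤
      (((range (x + 1)).filter fun n => n % 2 ^ a = ρ % 2 ^ a ∧
        Odd (multipartitions t n)).card : ℝ)) := by
  refine ⟨fun b => ?_, fun a ρ x hx => ?_⟩
  · obtain ⟨n, h1, h2, h3⟩ := main t ht b
    exact ⟨n, fun ρ hρ => ⟨h1 ρ hρ, h2 ρ hρ⟩, h3⟩
  · refine Pool.Agent.K7.H91.SQ.cnt_class (fun n => Odd (multipartitions t n)) (fun b => ?_) a ρ x hx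
    obtain ⟨n, h1, h2, h3⟩ := main t ht b
    refine ⟨n, h1, h2, ?_⟩
    have h6 : ∀ Q : ℕ, 3 * (∑ k ∈ range Q, k ^ 2) ≤ Q ^ 3 := by
      intro Q
      induction Q with
      | zero => simp
      | succ Q ih =>
        have h7 : (Q + 1) ^ 3 = Q ^ 3 + 3 * Q ^ 2 + 3 * Q + 1 := by ring
        rw [sum_range_succ, mul_add, h7]
        omega
    exact (Nat.mul_le_mul_left 3 h3).trans (h6 _)

end Pool.Agent.Results.MP_a3366f_nt.SquareRootBound
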